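import Pool.Agent.helper24.CG.Spec

set_option autoImplicit false

namespace Pool.Agent.helper24.CG

open Finset

theorem INI_card (N q p β : ℕ) :
    ((suns N q p).filter fun x => x.1.card = β).card ≤ N ^ (β + p * (q - β)) := by
  classical
  have hsub : ((suns N q p).filter fun x => x.1.card = β) ⊆
      ((univ : Finset (Fin N)).powersetCard β) ×ˢ
        (Fintype.piFinset fun _ : Fin p => (univ : Finset (Fin N)).powersetCard (q - β)) := by
    intro x hx
    rw [mem_filter] at hx
    obtain ⟨hx1, hx2⟩ := hx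
    unfold suns at hx1
    rw [mem_filter] at hx1
    obtain ⟨-, -, hx3⟩ := hx1
    rw [mem_product, mem_powersetCard, Fintype.mem_piFinset]
    refine ⟨⟨subset_univ _, hx2⟩, ?_⟩
    intro i
    rw [mem_powersetCard]
    refine ⟨subset_univ _, ?_⟩
    rw [(hx3 i).1, hx2]
  refine (card_le_card hsub).trans ?_
  rw [card_product, card_powersetCard, Fintype.card_piFinset_const, card_powersetCard, card_univ,
    Fintype.card_fin, pow_add, mul_comm p, pow_mul]
  exact Nat.mul_le_mul (Nat.choose_le_pow N β)
    (Nat.pow_le_pow_left (Nat.choose_le_pow N (q - β)) p)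

theorem INI : INI_stmt := by
  classical
  intro N q p hN
  have hNR : (0 : ℝ) < N := by exact_mod_cast hN
  refine ⟨?_, ?_, ?_⟩
  · intro S
    unfold Psi0
    refine add_nonneg (sum_nonneg fun x _ => ?_) (sum_nonneg fun K _ => ?_)
    · split_ifs
      · positivity
      · exact le_rfl
    · split_ifs
      · positivity
      · exact le_rfl
  · unfold Psi0
    rw [sum_add_distrib]
    have h1 : ∑ S : ES N, ∑ x ∈ suns N q p, (if sunset x.1 x.2 = S then
        (((q : ℝ) + 1) * (N : ℝ) ^ (x.1.card + p * (q - x.1.card)))⁻¹ else 0) ≤ 1 := by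
      rw [sum_comm]
      have h2 : ∀ x ∈ suns N q p, ∑ S : ES N, (if sunset x.1 x.2 = S then
          (((q : ℝ) + 1) * (N : ℝ) ^ (x.1.card + p * (q - x.1.card)))⁻¹ else 0) =
          (((q : ℝ) + 1) * (N : ℝ) ^ (x.1.card + p * (q - x.1.card)))⁻¹ := by
        intro x _
        rw [sum_ite_eq, if_pos (mem_univ _)]
      rw [sum_congr rfl h2]
      have h3 : ∀ x ∈ suns N q p, x.1.card ∈ range (q + 1) := by
        intro x hx
        unfold suns at hx
        rw [mem_filter] at hx
        rw [mem_range]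
        omega
      rw [← sum_fiberwise_of_maps_to h3]
      have h4 : ∀ β ∈ range (q + 1), ∑ x ∈ (suns N q p).filter (fun x => x.1.card = β),
          (((q : ℝ) + 1) * (N : ℝ) ^ (x.1.card + p * (q - x.1.card)))⁻¹ ≤ ((q : ℝ) + 1)⁻¹ := by
        intro β _
        have h5 : ∑ x ∈ (suns N q p).filter (fun x => x.1.card = β),
            (((q : ℝ) + 1) * (N : ℝ) ^ (x.1.card + p * (q - x.1.card)))⁻¹ =
            ∑ x ∈ (suns N q p).filter (fun x => x.1.card = β),
            (((q : ℝ) + 1) * (N : ℝ) ^ (β + p * (q - β)))⁻¹ := by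
          refine sum_congr rfl fun x hx => ?_
          rw [(mem_filter.1 hx).2]
        rw [h5, sum_const, nsmul_eq_mul, mul_inv]
        have h6 : ((((suns N q p).filter fun x => x.1.card = β).card : ℕ) : ℝ) ≤
            (N : ℝ) ^ (β + p * (q - β)) := by
          exact_mod_cast INI_card N q p β
        have h7 : (0 : ℝ) < (N : ℝ) ^ (β + p * (q - β)) := by positivity
        calc ((((suns N q p).filter fun x => x.1.card = β).card : ℕ) : ℝ) *
            (((q : ℝ) + 1)⁻¹ * ((N : ℝ) ^ (β + p * (q - β)))⁻¹)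
            ≤ (N : ℝ) ^ (β + p * (q - β)) *
            (((q : ℝ) + 1)⁻¹ * ((N : ℝ) ^ (β + p * (q - β)))⁻¹) :=
              mul_le_mul_of_nonneg_right h6 (by positivity)
          _ = ((q : ℝ) + 1)⁻¹ := by
              field_simp
      refine (sum_le_sum h4).trans ?_
      rw [sum_const, card_range, nsmul_eq_mul]
      push_cast
      rw [mul_inv_cancel₀ (by positivity)]
    have h2 : ∑ S : ES N, ∑ K ∈ (univ : Finset (Fin N)).powersetCard q,
        (if ed K = S then ((N : ℝ) ^ q)⁻¹ else 0) ≤ 1 := by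
      rw [sum_comm]
      have h3 : ∀ K ∈ (univ : Finset (Fin N)).powersetCard q, ∑ S : ES N,
          (if ed K = S then ((N : ℝ) ^ q)⁻¹ else 0) = ((N : ℝ) ^ q)⁻¹ := by
        intro K _
        rw [sum_ite_eq, if_pos (mem_univ _)]
      rw [sum_congr rfl h3, sum_const, nsmul_eq_mul, card_powersetCard, card_univ,
        Fintype.card_fin]
      have h4 : ((N.choose q : ℕ) : ℝ) ≤ (N : ℝ) ^ q := by
        exact_mod_cast Nat.choose_le_pow N q
      have h5 : (0 : ℝ) < (N : ℝ) ^ q := by positivity
      rw [← div_eq_mul_inv, div_le_one h5]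
      exact h4
    linarith
  · intro K hK
    unfold Psi0
    have h1 : ((N : ℝ) ^ q)⁻¹ ≤ ∑ K' ∈ (univ : Finset (Fin N)).powersetCard q,
        (if ed K' = ed K then ((N : ℝ) ^ q)⁻¹ else 0) := by
      have h2 := single_le_sum (f := fun K' => if ed K' = ed K then ((N : ℝ) ^ q)⁻¹ else 0)
        (s := (univ : Finset (Fin N)).powersetCard q) (a := K) ?_
        (mem_powersetCard.2 ⟨subset_univ _, hK⟩)
      · simpa using h2
      · intro K' _
        show (0 : ℝ) ≤ (if ed K' = ed K then ((N : ℝ) ^ q)⁻¹ else 0)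
        split_ifs
        · positivity
        · exact le_rfl
    have h3 : 0 ≤ ∑ x ∈ suns N q p, (if sunset x.1 x.2 = ed K then
        (((q : ℝ) + 1) * (N : ℝ) ^ (x.1.card + p * (q - x.1.card)))⁻¹ else 0) := by
      refine sum_nonneg fun x _ => ?_
      split_ifs
      · positivity
      · exact le_rfl
    linarith

end Pool.Agent.helper24.CG
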